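import Pool.Agent.H61.KU.TB

/-!
Module LO2 of the Kuiper board (ku_modules): two 4-simplices with a common 3-face in the image
contain a neighbourhood of the interior points of the common face.
-/

open Topology Set
open Pool.Agent.H59 Pool.Agent.H64.LB Pool.Agent.H61.KU

namespace Pool.Agent.H89.KU.LO2

noncomputable section

/-- the coordinates at the vertices of the common face -/
def cc (i : Fin 4 → Fin 9) (w : Fin 9 → ℝ) (x : Fin 4 → ℝ) : Fin 4 → ℝ :=
  ![w (i 0) + x 0 - |x 3| / 3, w (i 1) + x 1 - |x 3| / 3, w (i 2) + x 2 - |x 3| / 3,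
    w (i 3) - (x 0 + x 1 + x 2)]

lemma cc_cont (i : Fin 4 → Fin 9) (w : Fin 9 → ℝ) (k : Fin 4) :
    Continuous (fun x : Fin 4 → ℝ => cc i w x k) := by
  fin_cases k
  · change Continuous (fun x : Fin 4 → ℝ => w (i 0) + x 0 - |x 3| / 3)
    fun_prop
  · change Continuous (fun x : Fin 4 → ℝ => w (i 1) + x 1 - |x 3| / 3)
    fun_prop
  · change Continuous (fun x : Fin 4 → ℝ => w (i 2) + x 2 - |x 3| / 3)
    fun_prop
  · change Continuous (fun x : Fin 4 → ℝ => w (i 3) - (x 0 + x 1 + x 2))
    fun_prop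

/-- all coordinates -/
def uu (a b : Fin 9) (i : Fin 4 → Fin 9) (w : Fin 9 → ℝ) (x : Fin 4 → ℝ) (j : Fin 9) : ℝ :=
  (∑ k, if j = i k then cc i w x k else 0) + (if j = a then max (x 3) 0 else 0) +
    (if j = b then max (-(x 3)) 0 else 0)

/-- the point with these coordinates -/
def pp (v : Fin 9 → E8) (a b : Fin 9) (i : Fin 4 → Fin 9) (w : Fin 9 → ℝ) (x : Fin 4 → ℝ) : E8 :=
  (∑ k, cc i w x k • v (i k)) + max (x 3) 0 • v a + max (-(x 3)) 0 • v b

lemma pp_cont (v : Fin 9 → E8) (a b : Fin 9) (i : Fin 4 → Fin 9) (w : Fin 9 → ℝ) :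
    Continuous (pp v a b i w) := by
  unfold pp
  refine Continuous.add (Continuous.add ?_ ?_) ?_
  · exact continuous_finsetSum _ fun k _ => (cc_cont i w k).smul continuous_const
  · exact (((continuous_apply 3).max continuous_const).smul continuous_const)
  · exact ((((continuous_apply 3).neg).max continuous_const).smul continuous_const)

lemma sum_uu (v : Fin 9 → E8) (a b : Fin 9) (i : Fin 4 → Fin 9) (w : Fin 9 → ℝ)
    (x : Fin 4 → ℝ) : ∑ j, uu a b i w x j • v j = pp v a b i w x := by
  unfold uu pp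
  simp only [add_smul, Finset.sum_add_distrib, ite_smul, zero_smul, Finset.sum_smul]
  rw [Finset.sum_comm]
  simp

lemma tot_uu (a b : Fin 9) (i : Fin 4 → Fin 9) (w : Fin 9 → ℝ) (x : Fin 4 → ℝ) :
    ∑ j, uu a b i w x j = ∑ k, w (i k) := by
  unfold uu
  simp only [Finset.sum_add_distrib]
  rw [Finset.sum_comm]
  simp only [Finset.sum_ite_eq', Finset.mem_univ, if_true, cc, Fin.sum_univ_four]
  have h1 : max (x 3) 0 + max (-(x 3)) 0 = |x 3| := by
    rcases le_total 0 (x 3) with h | h
    · rw [max_eq_left h, max_eq_right (by linarith), abs_of_nonneg h, add_zero]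
    · rw [max_eq_right h, max_eq_left (by linarith), abs_of_nonpos h, zero_add]
  simp only [Matrix.cons_val_zero, Matrix.cons_val_one, Matrix.cons_val]
  linarith

lemma uu_ik {a b : Fin 9} {i : Fin 4 → Fin 9} (w : Fin 9 → ℝ) (x : Fin 4 → ℝ)
    (hi : Function.Injective i) (k : Fin 4) (ha : i k ≠ a) (hb : i k ≠ b) :
    uu a b i w x (i k) = cc i w x k := by
  unfold uu
  rw [if_neg ha, if_neg hb, add_zero, add_zero, Finset.sum_eq_single k]
  · rw [if_pos rfl]
  · intro k' _ hk'
    rw [if_neg fun h => hk' (hi h).symm]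
  · intro h
    exact absurd (Finset.mem_univ _) h

lemma uu_off {a b : Fin 9} {i : Fin 4 → Fin 9} (w : Fin 9 → ℝ) (x : Fin 4 → ℝ) (j : Fin 9)
    (hj : ∀ k, j ≠ i k) :
    uu a b i w x j = (if j = a then max (x 3) 0 else 0) +
      (if j = b then max (-(x 3)) 0 else 0) := by
  unfold uu
  rw [Finset.sum_eq_zero fun k _ => if_neg (hj k), zero_add]

lemma mem_cv (v : Fin 9 → E8) (F : Finset (Fin 9)) (u : Fin 9 → ℝ) (h0 : ∀ j ∈ F, 0 ≤ u j)
    (h1 : ∀ j, j ∉ F → u j = 0) (h2 : ∑ j, u j = 1) : ∑ j, u j • v j ∈ cv v F := by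
  have e1 : ∑ j ∈ F, u j • v j = ∑ j, u j • v j :=
    Finset.sum_subset (Finset.subset_univ _) fun j _ hj => by rw [h1 j hj, zero_smul]
  have e2 : ∑ j ∈ F, u j = 1 := by
    rw [← h2]
    exact Finset.sum_subset (Finset.subset_univ _) fun j _ hj => h1 j hj
  rw [← e1]
  refine Convex.sum_mem (convex_convexHull ℝ _) h0 e2 fun j hj => ?_
  exact subset_convexHull ℝ _ ⟨j, hj, rfl⟩

lemma eq_of_sum {v : Fin 9 → E8} (hv : AffineIndependent ℝ v) {u u' : Fin 9 → ℝ}
    (h : ∑ j, u j = 1) (h' : ∑ j, u' j = 1) (he : ∑ j, u j • v j = ∑ j, u' j • v j) : u = u' := by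
  refine (affineIndependent_iff_eq_of_fintype_affineCombination_eq ℝ v).1 hv u u' h h' ?_
  rw [Finset.affineCombination_eq_linear_combination _ _ _ h,
    Finset.affineCombination_eq_linear_combination _ _ _ h', he]

theorem pf_lo2 (hD : T_DOX) (hL : T_LFT) : T_LO2 := by
  intro f v W a b w y hf hv hW haW hbW hab hfa hfb hw hw0 hw1 hy
  let i : Fin 4 → Fin 9 := fun k => W.orderEmbOfFin hW k
  have hi : Function.Injective i := (W.orderEmbOfFin hW).injective
  have hiW : ∀ k, i k ∈ W := fun k => W.orderEmbOfFin_mem hW k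
  have hrange : ∀ j ∈ W, ∃ k, i k = j := by
    intro j hj
    have h := Finset.range_orderEmbOfFin W hW
    have : j ∈ Set.range (W.orderEmbOfFin hW) := by rw [h]; exact hj
    exact this
  have hia : ∀ k, i k ≠ a := fun k h => haW (h ▸ hiW k)
  have hib : ∀ k, i k ≠ b := fun k h => hbW (h ▸ hiW k)
  have hsum : ∑ k, w (i k) = 1 := by
    rw [← hw1]
    have h1 : ∑ j ∈ W, w j = ∑ j, w j :=
      Finset.sum_subset (Finset.subset_univ _) fun j _ hj => hw0 j hj
    rw [← h1]
    have h2 : Finset.univ.image i = W := by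
      ext j
      constructor
      · intro h
        obtain ⟨k, -, rfl⟩ := Finset.mem_image.1 h
        exact hiW k
      · intro h
        obtain ⟨k, rfl⟩ := hrange j h
        exact Finset.mem_image_of_mem _ (Finset.mem_univ _)
    rw [← h2, Finset.sum_image fun _ _ _ _ h => hi h]
  -- the open set
  set U : Set (Fin 4 → ℝ) := {x | ∀ k, 0 < cc i w x k} with hU
  have hUo : IsOpen U := by
    have : U = ⋂ k, {x | 0 < cc i w x k} := by
      ext x
      simp [hU]
    rw [this]
    exact isOpen_iInter_of_finite fun k => isOpen_lt continuous_const (cc_cont i w k)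
  have htot : ∀ x, ∑ j, uu a b i w x j = 1 := fun x => by rw [tot_uu, hsum]
  have hmem : ∀ x ∈ U, (0 ≤ x 3 → pp v a b i w x ∈ cv v (insert a W)) ∧
      (x 3 ≤ 0 → pp v a b i w x ∈ cv v (insert b W)) := by
    intro x hx
    have hnn : ∀ j ∈ W, 0 ≤ uu a b i w x j := by
      intro j hj
      obtain ⟨k, rfl⟩ := hrange j hj
      rw [uu_ik w x hi k (hia k) (hib k)]
      exact (hx k).le
    have hoff : ∀ j, j ∉ W → ∀ k, j ≠ i k := fun j hj k h => hj (h ▸ hiW k)
    constructor
    · intro hs
      rw [← sum_uu]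
      refine mem_cv v _ _ ?_ ?_ (htot x)
      · intro j hj
        rcases Finset.mem_insert.1 hj with rfl | hj
        · rw [uu_off w x _ (hoff _ haW), if_pos rfl, if_neg hab, add_zero]
          exact le_max_right _ _
        · exact hnn j hj
      · intro j hj
        have h1 : j ≠ a := fun h => hj (h ▸ Finset.mem_insert_self _ _)
        have h2 : j ∉ W := fun h => hj (Finset.mem_insert_of_mem h)
        rw [uu_off w x _ (hoff _ h2), if_neg h1, zero_add]
        split_ifs
        · exact max_eq_right (by linarith)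
        · rfl
    · intro hs
      rw [← sum_uu]
      refine mem_cv v _ _ ?_ ?_ (htot x)
      · intro j hj
        rcases Finset.mem_insert.1 hj with rfl | hj
        · rw [uu_off w x _ (hoff _ hbW), if_pos rfl, if_neg hab.symm, zero_add]
          exact le_max_right _ _
        · exact hnn j hj
      · intro j hj
        have h1 : j ≠ b := fun h => hj (h ▸ Finset.mem_insert_self _ _)
        have h2 : j ∉ W := fun h => hj (Finset.mem_insert_of_mem h)
        rw [uu_off w x _ (hoff _ h2), if_neg h1, add_zero]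
        split_ifs
        · exact max_eq_right hs
        · rfl
  have hrg : ∀ x ∈ U, pp v a b i w x ∈ range f := by
    intro x hx
    rcases le_total 0 (x 3) with h | h
    · exact hfa ((hmem x hx).1 h)
    · exact hfb ((hmem x hx).2 h)
  have hinj : ∀ x x' : Fin 4 → ℝ, pp v a b i w x = pp v a b i w x' → x = x' := by
    intro x x' h
    have h1 : uu a b i w x = uu a b i w x' :=
      eq_of_sum hv (htot x) (htot x') (by rw [sum_uu, sum_uu, h])
    have hA := congrFun h1 a
    have hB := congrFun h1 b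
    rw [uu_off w x a fun k h => hia k h.symm, uu_off w x' a fun k h => hia k h.symm] at hA
    rw [uu_off w x b fun k h => hib k h.symm, uu_off w x' b fun k h => hib k h.symm] at hB
    simp only [if_true, if_neg hab, add_zero] at hA
    simp only [if_true, if_neg hab.symm, zero_add] at hB
    have h3 : x 3 = x' 3 := by
      have e1 := max_zero_sub_max_neg_zero_eq_self (x 3)
      have e2 := max_zero_sub_max_neg_zero_eq_self (x' 3)
      rw [← e1, ← e2, hA, hB]
    have hC : ∀ k, cc i w x k = cc i w x' k := by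
      intro k
      rw [← uu_ik w x hi k (hia k) (hib k), ← uu_ik w x' hi k (hia k) (hib k), h1]
    have h0 : w (i 0) + x 0 - |x 3| / 3 = w (i 0) + x' 0 - |x' 3| / 3 := hC 0
    have h1' : w (i 1) + x 1 - |x 3| / 3 = w (i 1) + x' 1 - |x' 3| / 3 := hC 1
    have h2 : w (i 2) + x 2 - |x 3| / 3 = w (i 2) + x' 2 - |x' 3| / 3 := hC 2
    rw [h3] at h0 h1' h2
    funext k
    fin_cases k
    · change x 0 = x' 0; linarith
    · change x 1 = x' 1; linarith
    · change x 2 = x' 2; linarith
    · exact h3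
  -- the lift
  obtain ⟨ψ, hψ⟩ := hL f hf U ⟨fun x : U => pp v a b i w x.1,
    (pp_cont v a b i w).comp continuous_subtype_val⟩ fun t => hrg t.1 t.2
  classical
  let g : (Fin 4 → ℝ) → PN 2 := fun x => if h : x ∈ U then ψ ⟨x, h⟩ else y
  have hg : ∀ x (h : x ∈ U), g x = ψ ⟨x, h⟩ := fun x h => dif_pos h
  have hfg : ∀ x ∈ U, f (g x) = pp v a b i w x := by
    intro x h
    rw [hg x h, hψ]
    rfl
  have hgc : ContinuousOn g U := by
    rw [continuousOn_iff_continuous_domRestrict]
    have : U.domRestrict g = ψ := by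
      funext x
      exact hg x.1 x.2
    rw [this]
    exact ψ.continuous
  have hgi : InjOn g U := by
    intro x hx x' hx' h
    apply hinj
    rw [← hfg x hx, ← hfg x' hx', h]
  have hcc0 : ∀ k, cc i w 0 k = w (i k) := by
    intro k
    fin_cases k
    · change w (i 0) + (0 : ℝ) - |(0 : ℝ)| / 3 = w (i 0); simp
    · change w (i 1) + (0 : ℝ) - |(0 : ℝ)| / 3 = w (i 1); simp
    · change w (i 2) + (0 : ℝ) - |(0 : ℝ)| / 3 = w (i 2); simp
    · change w (i 3) - ((0 : ℝ) + 0 + 0) = w (i 3); simp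
  have h0U : (0 : Fin 4 → ℝ) ∈ U := by
    intro k
    rw [hcc0]
    exact hw _ (hiW k)
  refine ⟨g '' U, hD U g hUo hgc hgi, ⟨0, h0U, ?_⟩, ?_⟩
  · apply hf
    rw [hfg 0 h0U, hy, ← sum_uu]
    refine Finset.sum_congr rfl fun j _ => ?_
    congr 1
    by_cases hj : j ∈ W
    · obtain ⟨k, rfl⟩ := hrange j hj
      rw [uu_ik w 0 hi k (hia k) (hib k), hcc0]
    · rw [uu_off w 0 j fun k h => hj (h ▸ hiW k), hw0 j hj]
      simp
  · rintro z ⟨x, hx, rfl⟩
    rw [hfg x hx]
    rcases le_total 0 (x 3) with h | h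
    · exact Or.inl ((hmem x hx).1 h)
    · exact Or.inr ((hmem x hx).2 h)

end

end Pool.Agent.H89.KU.LO2
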